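import Mathlib
import Pool.Agent.Helper626.Alpha.Upper

set_option autoImplicit false

namespace Pool.Agent.Results.MP_afe93a_an.SupNormTree

open Pool.Agent.Helper547.Alpha

lemma bound (n : ℕ) (hn : 2 ≤ n) :
    alpha (Fin n → ℂ) ≤ n / Real.sqrt ((n : ℝ) + Real.sqrt ((n : ℝ) ^ 2 - n + 2)) :=
  alpha_le (Pool.Agent.Helper626.Alpha.ub_new n hn)

lemma improves (n : ℕ) (hn : 2 ≤ n) :
    (n : ℝ) / Real.sqrt ((n : ℝ) + Real.sqrt ((n : ℝ) ^ 2 - n + 2)) <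
      n / Real.sqrt (2 * n - 1) := by
  have hn' : (2 : ℝ) ≤ n := by exact_mod_cast hn
  have h1 : (n : ℝ) - 1 < Real.sqrt ((n : ℝ) ^ 2 - n + 2) := by
    rw [Real.lt_sqrt (by linarith)]; nlinarith
  apply div_lt_div_of_pos_left (by linarith) (Real.sqrt_pos.2 (by linarith))
  exact Real.sqrt_lt_sqrt (by linarith) (by linarith)

lemma three : (3 : ℝ) / Real.sqrt ((3 : ℝ) + Real.sqrt ((3 : ℝ) ^ 2 - 3 + 2)) =
    3 * (Real.sqrt 2 - 1) := by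
  have h2 : Real.sqrt 2 ^ 2 = 2 := Real.sq_sqrt (by norm_num)
  have h8 : Real.sqrt ((3 : ℝ) ^ 2 - 3 + 2) = 2 * Real.sqrt 2 := by
    rw [show ((3 : ℝ) ^ 2 - 3 + 2) = 2 ^ 2 * 2 by norm_num, Real.sqrt_mul (by norm_num),
      Real.sqrt_sq (by norm_num)]
  have h3 : Real.sqrt ((3 : ℝ) + 2 * Real.sqrt 2) = 1 + Real.sqrt 2 := by
    rw [show (3 : ℝ) + 2 * Real.sqrt 2 = (1 + Real.sqrt 2) ^ 2 by nlinarith]
    exact Real.sqrt_sq (by positivity)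
  have h0 : (0 : ℝ) < 1 + Real.sqrt 2 := by positivity
  rw [h8, h3, div_eq_iff h0.ne']
  nlinarith

/-- `α(ℓ_∞ⁿ) ≤ n / √(n + √(n² - n + 2))` for every `n ≥ 2`, which is strictly smaller than the bound
`n / √(2n - 1)`; in particular `α(ℓ_∞³) ≤ 3 (√2 - 1) < 1.24265`. -/
theorem result :
    (∀ n : ℕ, 2 ≤ n →
      alpha (Fin n → ℂ) ≤ n / Real.sqrt ((n : ℝ) + Real.sqrt ((n : ℝ) ^ 2 - n + 2)) ∧
      (n : ℝ) / Real.sqrt ((n : ℝ) + Real.sqrt ((n : ℝ) ^ 2 - n + 2)) <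
        n / Real.sqrt (2 * n - 1)) ∧
    alpha (Fin 3 → ℂ) ≤ 3 * (Real.sqrt 2 - 1) ∧ 3 * (Real.sqrt 2 - 1) < 1.24265 := by
  refine ⟨fun n hn => ⟨bound n hn, improves n hn⟩, ?_, ?_⟩
  · have h := bound 3 (by norm_num)
    push_cast at h
    rw [three] at h
    exact h
  · have h2 : Real.sqrt 2 < 1.414215 := by
      rw [Real.sqrt_lt' (by norm_num)]; norm_num
    linarith

end Pool.Agent.Results.MP_afe93a_an.SupNormTree
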